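import Pool.Agent.Lib.MP_16285c_agS.G.Spec

/-!
# The ambient map (G3)
-/

set_option autoImplicit false

namespace Pool.Agent.Lib.MP_16285c_agS.G

open MvPolynomial
open Pool.Agent.Lib.MP_16285c_ag (RM)
open Pool.Agent.ZDO (Wd Jc dd nn)
open Pool.Agent.Lib.MP_16285c_agS.Hrx (Mon wX jX fv Keeps Gen)
open Pool.Agent.Lib.MP_16285c_agS.Box (hc StmtHc)

namespace AmbM

/-- Fractions. -/
private theorem frac {k E : Type} [Field k] [Field E] [Algebra k E] (ξ : Fin 3 → E)
    (h : IntermediateField.adjoin k (Set.range ξ) = ⊤) (t : E) :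
    ∃ r q : MvPolynomial (Fin 3) k, aeval ξ q ≠ 0 ∧ aeval ξ q * t = aeval ξ r := by
  have ht : t ∈ IntermediateField.adjoin k (Set.range ξ) := by
    rw [h]
    exact IntermediateField.mem_top
  obtain ⟨r, q, h⟩ := (IntermediateField.mem_adjoin_range_iff k ξ t).1 ht
  by_cases hq : aeval ξ q = 0
  · refine ⟨0, 1, by simp, ?_⟩
    rw [h, hq]
    simp
  · refine ⟨r, q, hq, ?_⟩
    rw [h]
    field_simp

/-- Common denominators. -/
private theorem common {k E : Type} [Field k] [Field E] [Algebra k E] (ξ : Fin 3 → E)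
    (h : IntermediateField.adjoin k (Set.range ξ) = ⊤) (t : Fin 3 → E) :
    ∃ (e : MvPolynomial (Fin 3) k) (N : Fin 3 → MvPolynomial (Fin 3) k), aeval ξ e ≠ 0 ∧
      ∀ i, aeval ξ e * t i = aeval ξ (N i) := by
  choose r q hq hr using fun i => frac ξ h (t i)
  refine ⟨∏ i, q i, fun i => (∏ j ∈ Finset.univ.erase i, q j) * r i, ?_, fun i => ?_⟩
  · rw [map_prod]
    exact Finset.prod_ne_zero_iff.2 fun i _ => hq i
  · rw [map_mul, map_prod, map_prod, ← hr i,
      ← Finset.mul_prod_erase Finset.univ (fun j => aeval ξ (q j)) (Finset.mem_univ i)]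
    ring

/-- The ambient maps. -/
private noncomputable def F {k : Type} [Field k] (P e : MvPolynomial (Fin 3) k)
    (N : Fin 3 → MvPolynomial (Fin 3) k) (l : MvPolynomial (Fin 3) k) : RM k 3 where
  num := ![N 0 + l * P, N 1, N 2]
  den := fun _ => e

/-- The difference of the two Jacobian determinants. -/
private theorem diff {k : Type} [Field k] (P e : MvPolynomial (Fin 3) k)
    (N : Fin 3 → MvPolynomial (Fin 3) k) :
    ∃ Q : MvPolynomial (Fin 3) k, pderiv 0 P * (Jc (F P e N 1) - Jc (F P e N 0)) =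
      e * jX P (F P e N 0) + P * Q := by
  refine ⟨-(pderiv 0 P * (pderiv 0 e * (Wd (F P e N 0) 1 1 * Wd (F P e N 0) 2 2 -
      Wd (F P e N 0) 1 2 * Wd (F P e N 0) 2 1) - pderiv 1 e * (Wd (F P e N 0) 1 0 * Wd (F P e N 0) 2 2 -
      Wd (F P e N 0) 1 2 * Wd (F P e N 0) 2 0) + pderiv 2 e * (Wd (F P e N 0) 1 0 * Wd (F P e N 0) 2 1 -
      Wd (F P e N 0) 1 1 * Wd (F P e N 0) 2 0))), ?_⟩
  have h0 : ∀ j, Wd (F P e N 1) 0 j = Wd (F P e N 0) 0 j + (pderiv j P * e - P * pderiv j e) := by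
    intro j
    simp only [Wd, F, Matrix.cons_val_zero, one_mul, zero_mul, add_zero, map_add]
    ring
  have h1 : ∀ j, Wd (F P e N 1) 1 j = Wd (F P e N 0) 1 j := fun j => rfl
  have h2 : ∀ j, Wd (F P e N 1) 2 j = Wd (F P e N 0) 2 j := fun j => rfl
  simp only [Jc, Matrix.det_fin_three, Matrix.of_apply, h0, h1, h2, jX, wX]
  ring

end AmbM

open AmbM in
theorem tAmb : StmtJacS → StmtHc → StmtAmb := by
  intro hJ hHc k E _ _ _ _ P ξ ψ hirr hmon hgen
  obtain ⟨e, N, he, hN⟩ := common ξ hgen.top fun i => ψ (ξ i)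
  have hP : Prime P := hirr.prime
  have hP0 : aeval ξ P = 0 := (hgen.ker P).2 dvd_rfl
  have hne : ∀ A, aeval ξ A ≠ 0 → ¬ P ∣ A := fun A hA h => hA ((hgen.ker A).2 h)
  have hden : ∀ l i, ¬ P ∣ (F P e N l).den i := fun l i => hne _ he
  have hfv : ∀ l i, fv (F P e N l) ξ i = ψ (ξ i) := by
    intro l i
    have h1 : aeval ξ ((F P e N l).num i) = aeval ξ (N i) := by
      fin_cases i
      · simp [F, hP0]
      · simp [F]
      · simp [F]
    have h2 : aeval ξ ((F P e N l).den i) = aeval ξ e := rfl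
    unfold fv
    rw [h1, h2, ← hN i, mul_div_cancel_left₀ _ he]
  have hjX : ∀ l, ¬ P ∣ jX P (F P e N l) := fun l =>
    hJ k E P (F P e N l) ξ ψ hirr hmon hgen (hden l) (hfv l)
  have hJc : ∃ l, ¬ P ∣ Jc (F P e N l) := by
    by_contra hc
    push Not at hc
    obtain ⟨Q, hQ⟩ := diff P e N
    have h1 : P ∣ pderiv 0 P * (Jc (F P e N 1) - Jc (F P e N 0)) :=
      Dvd.dvd.mul_left (dvd_sub (hc 1) (hc 0)) _
    rw [hQ] at h1
    have h2 : P ∣ e * jX P (F P e N 0) := (dvd_add_left (Dvd.intro Q rfl)).1 h1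
    rcases hP.dvd_or_dvd h2 with h3 | h3
    · exact hne e he h3
    · exact hjX 0 h3
  obtain ⟨l, hl⟩ := hJc
  obtain ⟨-, hb, -, -⟩ := hHc
  refine ⟨F P e N l, ⟨hden l, hl, hjX l, ?_⟩, hfv l⟩
  set f := F P e N l with hf
  set M := P.totalDegree with hM
  have hdd : aeval ξ (dd f) ≠ 0 := by
    rw [dd, map_prod]
    exact Finset.prod_ne_zero_iff.2 fun i _ => he
  have h1 : aeval ξ (hc f M P) = 0 := by
    rw [hb k E f M P ξ le_rfl fun i => he]
    have h2 : aeval (fv f ξ) P = ψ (aeval ξ P) := by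
      have h3 : fv f ξ = fun i => ψ (ξ i) := funext (hfv l)
      rw [h3]
      exact (MvPolynomial.comp_aeval_apply ξ ψ P).symm
    rw [h2, hP0, map_zero, mul_zero]
  obtain ⟨W, hW⟩ := (hgen.ker _).1 h1
  refine ⟨dd f ^ M, W, hne _ ?_, ?_⟩
  · rw [map_pow]
    exact pow_ne_zero _ hdd
  · have hX : ∀ A : MvPolynomial (Fin 3) k, aeval (fun i => fr (X i : MvPolynomial (Fin 3) k)) A = fr A := by
      intro A
      have h3 : (aeval fun i => fr (X i : MvPolynomial (Fin 3) k)) =
          IsScalarTower.toAlgHom k (MvPolynomial (Fin 3) k) (FractionRing (MvPolynomial (Fin 3) k)) := by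
        refine MvPolynomial.algHom_ext fun i => ?_
        rw [aeval_X]
        rfl
      rw [h3]
      rfl
    have he0 : e ≠ 0 := by
      intro h
      rw [h, map_zero] at he
      exact he rfl
    have h4 := hb k (FractionRing (MvPolynomial (Fin 3) k)) f M P
      (fun i => fr (X i : MvPolynomial (Fin 3) k)) le_rfl fun i => by
        rw [hX]
        exact (map_ne_zero_iff _ (IsFractionRing.injective _ _)).2 he0
    have h5 : aeval (fv f fun i => fr (X i : MvPolynomial (Fin 3) k)) P = f.comp P := by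
      have h6 : (fv f fun i => fr (X i : MvPolynomial (Fin 3) k)) = fun i =>
          fr (f.num i) / fr (f.den i) := by
        funext i
        unfold fv
        rw [hX, hX]
      rw [h6]
      rfl
    rw [h5, hX, hX] at h4
    rw [← hW, h4]
    exact congrArg (· * f.comp P) (map_pow (algebraMap (MvPolynomial (Fin 3) k)
      (FractionRing (MvPolynomial (Fin 3) k))) (dd f) M).symm

end Pool.Agent.Lib.MP_16285c_agS.G
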