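import Pool.Agent.Lib.MP_16285c_agS.G.Spec
import Pool.Agent.ZDO.Jac

/-!
# The Jacobian of a dominant rational self-map of the surface
-/

set_option autoImplicit false

namespace Pool.Agent.Lib.MP_16285c_agS.G

open MvPolynomial
open Pool.Agent.Lib.MP_16285c_ag (RM)
open Pool.Agent.ZDO (Wd Jc dd nn)
open Pool.Agent.Lib.MP_16285c_agS.Hrx (Mon wX jX fv Keeps Gen)

namespace JacSM

theorem fse_pderiv {F : Type} [CommRing F] {r : ℕ} (G : MvPolynomial (Fin (r + 1)) F) :
    finSuccEquiv F r (pderiv 0 G) = Polynomial.derivative (finSuccEquiv F r G) := by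
  induction G using MvPolynomial.induction_on with
  | C a =>
    have h : finSuccEquiv F r (C a) = Polynomial.C (C a) := (finSuccEquiv F r).commutes a
    rw [pderiv_C, map_zero, h, Polynomial.derivative_C]
  | add p q hp hq => simp only [map_add, hp, hq]
  | mul_X p i hp =>
    rw [Derivation.leibniz, map_add, map_mul, Polynomial.derivative_mul, smul_eq_mul, smul_eq_mul,
      map_mul, map_mul, hp, mul_comm (finSuccEquiv F r (X i)), add_comm]
    congr 2
    refine Fin.cases ?_ (fun j => ?_) i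
    · rw [pderiv_X_self, map_one, finSuccEquiv_X_zero, Polynomial.derivative_X]
    · rw [pderiv_X_of_ne (Fin.succ_ne_zero j), map_zero, finSuccEquiv_X_succ,
        Polynomial.derivative_C]

/-- `P` does not divide its derivative with respect to `X 0`. -/
theorem not_dvd {k : Type} [Field k] [CharZero k] (P : MvPolynomial (Fin 3) k)
    (hP : Irreducible P) (hM : Mon P) : ¬ P ∣ pderiv 0 P := by
  intro h
  have hM' : (finSuccEquiv k 2 P).Monic := hM
  have h1 : finSuccEquiv k 2 P ∣ Polynomial.derivative (finSuccEquiv k 2 P) := by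
    rw [← fse_pderiv]
    exact map_dvd (finSuccEquiv k 2) h
  have h0 : (finSuccEquiv k 2 P).natDegree = 0 := by
    by_contra hne
    have h2 : Polynomial.derivative (finSuccEquiv k 2 P) = 0 := by
      by_contra hne'
      have h3 := Polynomial.natDegree_le_of_dvd h1 hne'
      have h4 := Polynomial.natDegree_derivative_lt hne
      omega
    exact hne (Polynomial.natDegree_eq_zero_of_derivative_eq_zero h2)
  have h3 : finSuccEquiv k 2 P = 1 := Polynomial.eq_one_of_monic_natDegree_zero hM' h0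
  have h4 : P = 1 := by
    have h5 := congrArg (finSuccEquiv k 2).symm h3
    rw [AlgEquiv.symm_apply_apply, map_one] at h5
    exact h5
  rw [h4] at hP
  exact hP.not_isUnit isUnit_one

section

variable {k E : Type} [Field k] [Field E] [Algebra k E] (P : MvPolynomial (Fin 3) k)
  (ξ : Fin 3 → E)

/-- The value of a polynomial at the point `ξ + ε v`. -/
theorem dual (v : Fin 3 → E) (G : MvPolynomial (Fin 3) k) :
    aeval (fun l => (TrivSqZeroExt.inl (ξ l) + TrivSqZeroExt.inr (v l) : TrivSqZeroExt E E)) G =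
      TrivSqZeroExt.inl (aeval ξ G) +
        TrivSqZeroExt.inr (∑ l, aeval ξ (pderiv l G) * v l) := by
  induction G using MvPolynomial.induction_on with
  | C a =>
    rw [aeval_C, aeval_C, TrivSqZeroExt.algebraMap_eq_inl']
    simp
  | add p q hp hq =>
    rw [map_add, map_add, hp, hq]
    ext
    · simp
    · simp only [map_add, add_mul, Finset.sum_add_distrib, TrivSqZeroExt.snd_add,
        TrivSqZeroExt.snd_inl, TrivSqZeroExt.snd_inr, zero_add]
  | mul_X p i hp =>
    rw [map_mul, map_mul, hp, aeval_X, aeval_X]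
    have h1 : ∑ l, aeval ξ (pderiv l (p * X i)) * v l =
        aeval ξ p * v i + ξ i * ∑ l, aeval ξ (pderiv l p) * v l := by
      have h2 : ∀ l, aeval ξ (pderiv l (p * X i)) * v l =
          ξ i * (aeval ξ (pderiv l p) * v l) + (if l = i then aeval ξ p * v i else 0) := by
        intro l
        rw [pderiv_mul, map_add, map_mul, map_mul, aeval_X]
        by_cases h : l = i
        · rw [if_pos h, h, pderiv_X_self, map_one]
          ring
        · rw [if_neg h, pderiv_X_of_ne (Ne.symm h), map_zero]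
          ring
      rw [Finset.sum_congr rfl fun l _ => h2 l, Finset.sum_add_distrib, ← Finset.mul_sum,
        Finset.sum_ite_eq' Finset.univ i, if_pos (Finset.mem_univ i), add_comm]
    rw [h1]
    ext
    · simp
    · simp [add_comm, mul_comm]

theorem exists_der (hG : Gen P ξ) (v : Fin 3 → E)
    (hv : ∑ l, aeval ξ (pderiv l P) * v l = 0) :
    ∃ D : Derivation k E E, ∀ G : MvPolynomial (Fin 3) k,
      D (aeval ξ G) = ∑ l, aeval ξ (pderiv l G) * v l := by
  classical
  let I : Ideal (MvPolynomial (Fin 3) k) := Ideal.span {P}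
  let π : (MvPolynomial (Fin 3) k ⧸ I) →ₐ[k] E := Ideal.Quotient.liftₐ I (aeval ξ)
    fun a ha => (hG.ker a).2 (Ideal.mem_span_singleton.1 ha)
  have hπ : ∀ G, π (Ideal.Quotient.mk I G) = aeval ξ G := fun G => rfl
  have hπi : Function.Injective π := by
    rw [injective_iff_map_eq_zero]
    intro a ha
    obtain ⟨G, rfl⟩ := Ideal.Quotient.mk_surjective a
    rw [hπ] at ha
    exact Ideal.Quotient.eq_zero_iff_mem.2 (Ideal.mem_span_singleton.2 ((hG.ker G).1 ha))
  let _ : Algebra (MvPolynomial (Fin 3) k ⧸ I) E := (π : _ →+* E).toAlgebra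
  have hal : ∀ a : MvPolynomial (Fin 3) k ⧸ I, algebraMap (MvPolynomial (Fin 3) k ⧸ I) E a = π a :=
    fun a => rfl
  have : FaithfulSMul (MvPolynomial (Fin 3) k ⧸ I) E :=
    (faithfulSMul_iff_algebraMap_injective _ _).mpr hπi
  have : IsFractionRing (MvPolynomial (Fin 3) k ⧸ I) E := by
    refine IsFractionRing.of_field _ _ fun z => ?_
    have hz : z ∈ IntermediateField.adjoin k (Set.range ξ) := by
      rw [hG.top]
      trivial
    obtain ⟨r, s, hrs⟩ := (IntermediateField.mem_adjoin_range_iff k ξ z).1 hz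
    exact ⟨Ideal.Quotient.mk I r, Ideal.Quotient.mk I s, hrs⟩
  let w : Fin 3 → TrivSqZeroExt E E :=
    fun l => TrivSqZeroExt.inl (ξ l) + TrivSqZeroExt.inr (v l)
  let Φ : (MvPolynomial (Fin 3) k ⧸ I) →ₐ[k] TrivSqZeroExt E E := Ideal.Quotient.liftₐ I (aeval w)
    fun a ha => by
      obtain ⟨b, rfl⟩ := Ideal.mem_span_singleton.1 ha
      rw [map_mul]
      have h1 : aeval w P = 0 := by
        rw [dual ξ v P, hv, (hG.ker P).2 dvd_rfl]
        simp
      rw [h1, zero_mul]
  have hΦ : ∀ G, Φ (Ideal.Quotient.mk I G) = TrivSqZeroExt.inl (aeval ξ G) +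
      TrivSqZeroExt.inr (∑ l, aeval ξ (pderiv l G) * v l) := fun G => dual ξ v G
  have hΦf : ∀ a, (Φ a).fst = π a := by
    intro a
    obtain ⟨G, rfl⟩ := Ideal.Quotient.mk_surjective a
    rw [hΦ, hπ]
    simp
  have hnt : Nontrivial (MvPolynomial (Fin 3) k ⧸ I) :=
    ⟨0, 1, fun h => by
      have h' := congrArg π h
      rw [map_zero, map_one] at h'
      exact zero_ne_one h'⟩
  have hun : ∀ y : nonZeroDivisors (MvPolynomial (Fin 3) k ⧸ I),
      IsUnit ((Φ : (MvPolynomial (Fin 3) k ⧸ I) →+* TrivSqZeroExt E E) y) := by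
    intro y
    rw [TrivSqZeroExt.isUnit_iff_isUnit_fst]
    have h1 : ((Φ : (MvPolynomial (Fin 3) k ⧸ I) →+* TrivSqZeroExt E E) (y : MvPolynomial (Fin 3) k ⧸ I)).fst = π y :=
      hΦf y
    rw [h1, isUnit_iff_ne_zero]
    exact IsFractionRing.to_map_ne_zero_of_mem_nonZeroDivisors (K := E) y.2
  let Ψ : E →+* TrivSqZeroExt E E := IsLocalization.lift hun
  have hΨ : ∀ a, Ψ (π a) = Φ a := fun a => IsLocalization.lift_eq hun a
  have hΨf : ∀ z, (Ψ z).fst = z := by
    have h1 : ((TrivSqZeroExt.fstHom E E E : TrivSqZeroExt E E →ₐ[E] E) :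
        TrivSqZeroExt E E →+* E).comp Ψ = RingHom.id E := by
      refine IsLocalization.ringHom_ext (nonZeroDivisors (MvPolynomial (Fin 3) k ⧸ I)) ?_
      refine RingHom.ext fun a => ?_
      show (Ψ (π a)).fst = π a
      rw [hΨ, hΦf]
    intro z
    exact RingHom.congr_fun h1 z
  have hmul : ∀ a b, (Ψ (a * b)).snd = a * (Ψ b).snd + b * (Ψ a).snd := by
    intro a b
    rw [map_mul, TrivSqZeroExt.snd_mul, hΨf, hΨf, smul_eq_mul, add_right_inj]
    exact mul_comm _ _
  have hk : ∀ c : k, (Ψ (algebraMap k E c)).snd = 0 := by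
    intro c
    have h1 : algebraMap k E c = π (Ideal.Quotient.mk I (C c)) := by
      rw [hπ, aeval_C]
    rw [h1, hΨ, hΦ]
    simp
  refine ⟨Derivation.mk'
    { toFun := fun z => (Ψ z).snd
      map_add' := fun a b => by rw [map_add, TrivSqZeroExt.snd_add]
      map_smul' := fun c a => by
        rw [Algebra.smul_def, hmul, hk, mul_zero, add_zero, RingHom.id_apply, Algebra.smul_def] }
    fun a b => ?_, fun G => ?_⟩
  · show (Ψ (a * b)).snd = a • (Ψ b).snd + b • (Ψ a).snd
    rw [hmul, smul_eq_mul, smul_eq_mul]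
  · show (Ψ (aeval ξ G)).snd = _
    rw [← hπ, hΨ, hΦ]
    simp

/-- `E` is algebraic over the image of an endomorphism. -/
theorem alg_range (hG : Gen P ξ) (ψ : E →ₐ[k] E) : Algebra.IsAlgebraic ψ.fieldRange E := by
  classical
  let I : Ideal (MvPolynomial (Fin 3) k) := Ideal.span {P}
  let π : (MvPolynomial (Fin 3) k ⧸ I) →ₐ[k] E := Ideal.Quotient.liftₐ I (aeval ξ)
    fun a ha => (hG.ker a).2 (Ideal.mem_span_singleton.1 ha)
  have hπ : ∀ G, π (Ideal.Quotient.mk I G) = aeval ξ G := fun G => rfl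
  have hπi : Function.Injective π := by
    rw [injective_iff_map_eq_zero]
    intro a ha
    obtain ⟨G, rfl⟩ := Ideal.Quotient.mk_surjective a
    rw [hπ] at ha
    exact Ideal.Quotient.eq_zero_iff_mem.2 (Ideal.mem_span_singleton.2 ((hG.ker G).1 ha))
  let _ : Algebra (MvPolynomial (Fin 3) k ⧸ I) E := (π : _ →+* E).toAlgebra
  have : IsScalarTower k (MvPolynomial (Fin 3) k ⧸ I) E :=
    IsScalarTower.of_algebraMap_eq' π.comp_algebraMap.symm
  have : FaithfulSMul (MvPolynomial (Fin 3) k ⧸ I) E :=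
    (faithfulSMul_iff_algebraMap_injective _ _).mpr hπi
  have hnt : Nontrivial (MvPolynomial (Fin 3) k ⧸ I) :=
    ⟨0, 1, fun h => by
      have h' := congrArg π h
      rw [map_zero, map_one] at h'
      exact zero_ne_one h'⟩
  have hfs := (faithfulSMul_iff_algebraMap_injective k (MvPolynomial (Fin 3) k ⧸ I)).mpr
    (algebraMap k (MvPolynomial (Fin 3) k ⧸ I)).injective
  have : IsFractionRing (MvPolynomial (Fin 3) k ⧸ I) E := by
    refine IsFractionRing.of_field _ _ fun z => ?_
    have hz : z ∈ IntermediateField.adjoin k (Set.range ξ) := by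
      rw [hG.top]
      trivial
    obtain ⟨r, s, hrs⟩ := (IntermediateField.mem_adjoin_range_iff k ξ z).1 hz
    exact ⟨Ideal.Quotient.mk I r, Ideal.Quotient.mk I s, hrs⟩
  have h1 : Algebra.trdeg k E < Cardinal.aleph0 := by
    have h2 := _root_.trdeg_add_eq k (MvPolynomial (Fin 3) k ⧸ I) (A := E)
    have : Algebra.IsAlgebraic (MvPolynomial (Fin 3) k ⧸ I) E :=
      IsLocalization.isAlgebraic _ (nonZeroDivisors (MvPolynomial (Fin 3) k ⧸ I))
    have h3 : Algebra.trdeg (MvPolynomial (Fin 3) k ⧸ I) E = 0 := _root_.trdeg_eq_zero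
    rw [h3, add_zero] at h2
    rw [← h2]
    refine lt_of_le_of_lt (_root_.trdeg_le_of_surjective (Ideal.Quotient.mkₐ k I)
      (Ideal.Quotient.mkₐ_surjective k I)) ?_
    rw [MvPolynomial.trdeg_of_isDomain]
    simp
  have h2 : Algebra.trdeg k ψ.fieldRange = Algebra.trdeg k E :=
    (AlgEquiv.trdeg_eq (AlgEquiv.ofInjectiveField ψ)).symm
  have h3 := _root_.trdeg_add_eq k ψ.fieldRange (A := E)
  rw [h2] at h3
  have h4 : Algebra.trdeg ψ.fieldRange E = 0 :=
    Cardinal.eq_of_add_eq_add_left (h3.trans (add_zero _).symm) h1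
  exact _root_.trdeg_eq_zero_iff.1 h4

end

end JacSM

open JacSM in
/-- (G2) The Jacobian. -/
theorem tJacS : StmtJacS := by
  intro k E _ _ _ _ P f ξ ψ hP hM hG hden hψ hJ
  classical
  have hcE : CharZero E := charZero_of_injective_algebraMap (algebraMap k E).injective
  have hP0 : aeval ξ (pderiv 0 P) ≠ 0 := fun h => not_dvd P hP hM ((hG.ker _).1 h)
  have hPξ : aeval ξ P = 0 := (hG.ker P).2 dvd_rfl
  have hdet : aeval ξ (jX P f) = 0 := (hG.ker _).2 hJ
  -- a vector in the kernel
  obtain ⟨c, hc0, hc⟩ : ∃ c : Fin 2 → E, c ≠ 0 ∧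
      (!![aeval ξ (wX P f 1 1), aeval ξ (wX P f 1 2); aeval ξ (wX P f 2 1),
        aeval ξ (wX P f 2 2)] : Matrix (Fin 2) (Fin 2) E).mulVec c = 0 := by
    rw [Matrix.exists_mulVec_eq_zero_iff, Matrix.det_fin_two_of, ← hdet, jX, map_sub, map_mul,
      map_mul]
  have hc1 : aeval ξ (wX P f 1 1) * c 0 + aeval ξ (wX P f 1 2) * c 1 = 0 := by
    have h := congrFun hc 0
    simpa [Matrix.mulVec, dotProduct, Fin.sum_univ_two] using h
  have hc2 : aeval ξ (wX P f 2 1) * c 0 + aeval ξ (wX P f 2 2) * c 1 = 0 := by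
    have h := congrFun hc 1
    simpa [Matrix.mulVec, dotProduct, Fin.sum_univ_two] using h
  let v : Fin 3 → E := ![-(aeval ξ (pderiv 1 P) * c 0 + aeval ξ (pderiv 2 P) * c 1),
    aeval ξ (pderiv 0 P) * c 0, aeval ξ (pderiv 0 P) * c 1]
  have hsum : ∀ G : MvPolynomial (Fin 3) k, ∑ l, aeval ξ (pderiv l G) * v l =
      (aeval ξ (pderiv 0 P) * aeval ξ (pderiv 1 G) - aeval ξ (pderiv 0 G) *
        aeval ξ (pderiv 1 P)) * c 0 +
      (aeval ξ (pderiv 0 P) * aeval ξ (pderiv 2 G) - aeval ξ (pderiv 0 G) *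
        aeval ξ (pderiv 2 P)) * c 1 := by
    intro G
    rw [Fin.sum_univ_three]
    show aeval ξ (pderiv 0 G) * -(aeval ξ (pderiv 1 P) * c 0 + aeval ξ (pderiv 2 P) * c 1) +
      aeval ξ (pderiv 1 G) * (aeval ξ (pderiv 0 P) * c 0) +
      aeval ξ (pderiv 2 G) * (aeval ξ (pderiv 0 P) * c 1) = _
    ring
  obtain ⟨D, hD⟩ := exists_der P ξ hG v (by rw [hsum]; ring)
  -- `D` kills `ψ (ξ 1)`, `ψ (ξ 2)`
  have hDu : ∀ i : Fin 3, aeval ξ (wX P f i 1) * c 0 + aeval ξ (wX P f i 2) * c 1 = 0 →
      D (ψ (ξ i)) = 0 := by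
    intro i hi
    have hd : aeval ξ (f.den i) ≠ 0 := fun h => hden i ((hG.ker _).1 h)
    have h1 : ψ (ξ i) * aeval ξ (f.den i) = aeval ξ (f.num i) := by
      rw [← hψ i, fv, div_mul_cancel₀ _ hd]
    have h2 := congrArg D h1
    rw [Derivation.leibniz, hD, hD, smul_eq_mul, smul_eq_mul, hsum, hsum] at h2
    simp only [wX, Wd, map_sub, map_mul] at hi
    have h3 : D (ψ (ξ i)) * (aeval ξ (f.den i) * aeval ξ (f.den i)) = 0 := by
      rw [← h1] at hi
      linear_combination (aeval ξ (f.den i)) * h2 + hi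
    exact (mul_eq_zero.1 h3).resolve_right (mul_ne_zero hd hd)
  have h1 := hDu 1 hc1
  have h2 := hDu 2 hc2
  -- chain rule for `D ∘ ψ`
  have hch : ∀ G : MvPolynomial (Fin 3) k, D (ψ (aeval ξ G)) =
      ψ (aeval ξ (pderiv 0 G)) * D (ψ (ξ 0)) := by
    intro G
    have h3 : ∀ A : MvPolynomial (Fin 3) k, ψ (aeval ξ A) = aeval (fun l => ψ (ξ l)) A := by
      intro A
      rw [← MvPolynomial.comp_aeval_apply]
    rw [h3, h3]
    have h4 : D (aeval (fun l => ψ (ξ l)) G) =
        ∑ l, aeval (fun l => ψ (ξ l)) (pderiv l G) * D (ψ (ξ l)) := by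
      induction G using MvPolynomial.induction_on with
      | C a =>
        rw [aeval_C, D.map_algebraMap]
        simp
      | add p q hp hq =>
        rw [map_add, map_add, hp, hq, ← Finset.sum_add_distrib]
        refine Finset.sum_congr rfl fun l _ => ?_
        rw [map_add, map_add, add_mul]
      | mul_X p i hp =>
        rw [map_mul, aeval_X, Derivation.leibniz, hp, smul_eq_mul, smul_eq_mul]
        have h2' : ∀ l, aeval (fun l => ψ (ξ l)) (pderiv l (p * X i)) * D (ψ (ξ l)) =
            ψ (ξ i) * (aeval (fun l => ψ (ξ l)) (pderiv l p) * D (ψ (ξ l))) +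
            (if l = i then aeval (fun l => ψ (ξ l)) p * D (ψ (ξ i)) else 0) := by
          intro l
          rw [pderiv_mul, map_add, map_mul, map_mul, aeval_X]
          by_cases h : l = i
          · rw [if_pos h, h, pderiv_X_self, map_one]
            ring
          · rw [if_neg h, pderiv_X_of_ne (Ne.symm h), map_zero]
            ring
        rw [Finset.sum_congr rfl fun l _ => h2' l, Finset.sum_add_distrib, ← Finset.mul_sum,
          Finset.sum_ite_eq' Finset.univ i, if_pos (Finset.mem_univ i), add_comm]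
    rw [h4, Fin.sum_univ_three, h1, h2, mul_zero, mul_zero, add_zero, add_zero]
  have h0 : D (ψ (ξ 0)) = 0 := by
    have h3 := hch P
    rw [hPξ, map_zero, map_zero] at h3
    have h4 : ψ (aeval ξ (pderiv 0 P)) ≠ 0 := fun h => hP0 (ψ.injective (h.trans (map_zero ψ).symm))
    exact (mul_eq_zero.1 h3.symm).resolve_left h4
  have hch0 : ∀ G : MvPolynomial (Fin 3) k, D (ψ (aeval ξ G)) = 0 := by
    intro G
    rw [hch, h0, mul_zero]
  have hker : ∀ z ∈ ψ.fieldRange.toSubfield, D z = 0 := by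
    rintro z hz
    obtain ⟨y, hy⟩ : ∃ y, ψ y = z := hz
    have hy' : y ∈ IntermediateField.adjoin k (Set.range ξ) := by
      rw [hG.top]
      trivial
    obtain ⟨r, s, hrs⟩ := (IntermediateField.mem_adjoin_range_iff k ξ y).1 hy'
    rw [← hy, hrs, map_div₀, Derivation.leibniz_div, hch0, hch0, smul_zero, smul_zero, sub_zero,
      smul_zero]
  have halg := alg_range P ξ hG ψ
  have hall : ∀ z, D z = 0 := by
    intro z
    exact Pool.Agent.ZDO.derivation_eq_zero D ψ.fieldRange.toSubfield hker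
      (fun z => halg.isAlgebraic z) z
  apply hc0
  funext j
  have hj : ∀ l : Fin 3, v l = 0 := by
    intro l
    have h3 := hD (X l)
    rw [hall, Finset.sum_eq_single l] at h3
    · rw [pderiv_X_self, map_one, one_mul] at h3
      exact h3.symm
    · intro l' _ hl
      rw [pderiv_X_of_ne (Ne.symm hl), map_zero, zero_mul]
    · intro h
      exact absurd (Finset.mem_univ l) h
  fin_cases j
  · exact (mul_eq_zero.1 (hj 1)).resolve_left hP0
  · exact (mul_eq_zero.1 (hj 2)).resolve_left hP0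

end Pool.Agent.Lib.MP_16285c_agS.G
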