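import Pool.Agent.Lib.MP_16285c_agS.G.Spec

/-!
# From an arbitrary surface to the model: invariants (G4)
-/

set_option autoImplicit false

namespace Pool.Agent.Lib.MP_16285c_agS.G

open MvPolynomial
open Pool.Agent.Lib.MP_16285c_ag (RM)
open Pool.Agent.ZDO (Wd Jc dd nn)
open Pool.Agent.Lib.MP_16285c_agS.Hrx (Mon wX jX fv Keeps Gen)
open Pool.Agent.Lib.MP_16285c_agS.Box (hc StmtHc)

namespace NoInvM

variable {k : Type} [Field k]

/-- The generic point of affine space. -/
theorem aeval_gen (A : MvPolynomial (Fin 3) k) :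
    aeval (fun i => fr (X i : MvPolynomial (Fin 3) k)) A = fr A := by
  have h : (aeval fun i => fr (X i : MvPolynomial (Fin 3) k)) =
      (Algebra.ofId (MvPolynomial (Fin 3) k) (FractionRing (MvPolynomial (Fin 3) k))).restrictScalars k := by
    ext i
    simp [Algebra.ofId_apply]
  rw [h]
  rfl

theorem aeval_fv (f : RM k 3) (A : MvPolynomial (Fin 3) k) :
    aeval (fv f fun i => fr (X i : MvPolynomial (Fin 3) k)) A = f.comp A := by
  have h : (fv f fun i => fr (X i : MvPolynomial (Fin 3) k)) = fun i =>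
      algebraMap (MvPolynomial (Fin 3) k) (FractionRing (MvPolynomial (Fin 3) k)) (f.num i) /
      algebraMap (MvPolynomial (Fin 3) k) (FractionRing (MvPolynomial (Fin 3) k)) (f.den i) := by
    funext i
    rw [fv, aeval_gen, aeval_gen]
  rw [h]
  rfl

end NoInvM

open NoInvM

theorem tNoInv : StmtHc → StmtNoInv := by
  intro hHc k E _ _ _ P f ξ ψ hG hI hψ hinv A B hB hEN
  obtain ⟨E', N, hE', hEN⟩ := hEN
  obtain ⟨-, hb, -, -⟩ := hHc
  have hden : ∀ i, f.den i ≠ 0 := fun i h => hI.den i (h ▸ dvd_zero P)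
  have hinj : Function.Injective (algebraMap (MvPolynomial (Fin 3) k)
      (FractionRing (MvPolynomial (Fin 3) k))) := IsFractionRing.injective _ _
  have hfr : ∀ D : MvPolynomial (Fin 3) k, D ≠ 0 → fr D ≠ 0 := fun D hD h =>
    hD (hinj (by rw [map_zero]; exact h))
  set M := A.totalDegree + B.totalDegree with hM
  have hgen : ∀ i, aeval (fun i => fr (X i : MvPolynomial (Fin 3) k)) (f.den i) ≠ 0 := fun i => by
    rw [aeval_gen]
    exact hfr _ (hden i)
  have hA1 := hb k (FractionRing (MvPolynomial (Fin 3) k)) f M A _ (Nat.le_add_right _ _) hgen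
  have hB1 := hb k (FractionRing (MvPolynomial (Fin 3) k)) f M B _ (Nat.le_add_left _ _) hgen
  rw [aeval_gen, aeval_gen, aeval_fv] at hA1 hB1
  have key : P * N * dd f ^ M = E' * (hc f M A * B - hc f M B * A) := by
    apply hinj
    have h1 : fr (P * N * dd f ^ M) = fr (P * N) * fr (dd f) ^ M := by
      rw [fr, map_mul, map_pow]
    have h2 : fr (E' * (hc f M A * B - hc f M B * A)) =
        fr E' * (fr (hc f M A) * fr B - fr (hc f M B) * fr A) := by
      rw [fr, map_mul, map_sub, map_mul, map_mul]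
    change fr (P * N * dd f ^ M) = fr (E' * (hc f M A * B - hc f M B * A))
    rw [h1, h2, hEN, hA1, hB1]
    ring
  have hP0 : aeval ξ P = 0 := (hG.ker P).2 (dvd_refl P)
  have hdξ : ∀ i, aeval ξ (f.den i) ≠ 0 := fun i h => hI.den i ((hG.ker _).1 h)
  have hdd : aeval ξ (dd f) ≠ 0 := by
    rw [dd, map_prod]
    exact Finset.prod_ne_zero_iff.2 fun i _ => hdξ i
  have hfv : fv f ξ = fun i => ψ (ξ i) := funext hψ
  have hψa : ∀ D : MvPolynomial (Fin 3) k, aeval (fv f ξ) D = ψ (aeval ξ D) := fun D => by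
    rw [hfv]
    have h0 : (aeval fun i => ψ (ξ i)) = ψ.comp (aeval ξ) := by
      ext i
      simp
    rw [h0]
    rfl
  have hA2 := hb k E f M A ξ (Nat.le_add_right _ _) hdξ
  have hB2 := hb k E f M B ξ (Nat.le_add_left _ _) hdξ
  rw [hψa] at hA2 hB2
  have h3 := congrArg (aeval ξ) key
  rw [map_mul, map_mul, hP0, zero_mul, zero_mul, map_mul, map_sub, map_mul, map_mul, hA2, hB2] at h3
  have hEξ : aeval ξ E' ≠ 0 := fun h => hE' ((hG.ker _).1 h)
  have hBξ : aeval ξ B ≠ 0 := fun h => hB ((hG.ker _).1 h)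
  have hψB : ψ (aeval ξ B) ≠ 0 := fun h => hBξ ((map_eq_zero ψ).1 h)
  have h4 : aeval ξ (dd f) ^ M * (ψ (aeval ξ A) * aeval ξ B - ψ (aeval ξ B) * aeval ξ A) = 0 := by
    rcases mul_eq_zero.1 h3.symm with h | h
    · exact absurd h hEξ
    · rw [← h]
      ring
  have h5 : ψ (aeval ξ A) * aeval ξ B = ψ (aeval ξ B) * aeval ξ A := by
    rcases mul_eq_zero.1 h4 with h | h
    · exact absurd h (pow_ne_zero _ hdd)
    · exact sub_eq_zero.1 h
  obtain ⟨c, hc'⟩ := hinv (aeval ξ A / aeval ξ B) (by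
    rw [map_div₀, div_eq_div_iff hψB hBξ, h5]
    ring)
  refine ⟨c, (hG.ker _).1 ?_⟩
  rw [map_sub, map_mul, MvPolynomial.aeval_C, ← hc', div_mul_cancel₀ _ hBξ, sub_self]

end Pool.Agent.Lib.MP_16285c_agS.G
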