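import Pool.Agent.Lib.MP_16285c_agS.G.Spec

/-!
# Points of the model and points of the surface (G5)
-/

set_option autoImplicit false

namespace Pool.Agent.Lib.MP_16285c_agS.G

open MvPolynomial
open Pool.Agent.Lib.MP_16285c_agS.Hrx (Gen)

namespace PtsM

variable {k : Type} [Field k]

/-- clearing denominators -/
noncomputable def hat {R : Type} [CommRing R] [Algebra k R] {m : ℕ} (c : R) (Y : Fin m → R)
    (N : ℕ) (A : MvPolynomial (Fin m) k) : R :=
  ∑ s ∈ A.support, algebraMap k R (coeff s A) * (c ^ (N - ∑ i, s i) * ∏ i, Y i ^ s i)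

theorem hat_map {R L : Type} [CommRing R] [Algebra k R] [CommRing L] [Algebra k L] {m : ℕ} (c : R)
    (Y : Fin m → R) {N : ℕ} {A : MvPolynomial (Fin m) k} (hN : A.totalDegree ≤ N) (θ : R →ₐ[k] L)
    (u : Fin m → L) (hu : ∀ i, u i * θ c = θ (Y i)) :
    θ (hat c Y N A) = θ c ^ N * aeval u A := by
  rw [aeval_def, eval₂_eq', Finset.mul_sum]
  unfold hat
  rw [map_sum]
  refine Finset.sum_congr rfl fun s hs => ?_
  have h1 : ∑ i, s i ≤ N := by
    refine le_trans ?_ hN
    have := le_totalDegree hs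
    rwa [Finsupp.sum_fintype _ _ fun _ => rfl] at this
  have h2 : ∏ i, θ (Y i) ^ s i = θ c ^ (∑ i, s i) * ∏ i, u i ^ s i := by
    rw [← Finset.prod_pow_eq_pow_sum, ← Finset.prod_mul_distrib]
    exact Finset.prod_congr rfl fun i _ => by rw [← hu i, mul_pow, mul_comm]
  rw [map_mul, AlgHom.commutes, map_mul, map_pow, map_prod]
  simp only [map_pow]
  rw [h2]
  have h3 : θ c ^ N = θ c ^ (N - ∑ i, s i) * θ c ^ (∑ i, s i) := by
    rw [← pow_add, Nat.sub_add_cancel h1]
  rw [h3]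
  ring

theorem ae {n : ℕ} (w : Fin n → k) (A : MvPolynomial (Fin n) k) : (aeval w A : k) = eval w A := by
  rw [aeval_def, Algebra.algebraMap_self]
  rfl

section gen

variable {E : Type} [Field E] [Algebra k E] {P : MvPolynomial (Fin 3) k} {ξ : Fin 3 → E}

theorem frac (hG : Gen P ξ) (h : E) : ∃ A B : MvPolynomial (Fin 3) k, aeval ξ B ≠ 0 ∧
    h * aeval ξ B = aeval ξ A := by
  have h1 : h ∈ IntermediateField.adjoin k (Set.range ξ) := by
    rw [hG.top]
    exact IntermediateField.mem_top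
  rw [IntermediateField.mem_adjoin_range_iff] at h1
  obtain ⟨r, s, rfl⟩ := h1
  by_cases h0 : aeval ξ s = 0
  · exact ⟨0, 1, by simp, by rw [h0]; simp⟩
  · exact ⟨r, s, h0, div_mul_cancel₀ _ h0⟩

theorem common (hG : Gen P ξ) {m : ℕ} (h : Fin m → E) :
    ∃ (c : MvPolynomial (Fin 3) k) (Y : Fin m → MvPolynomial (Fin 3) k), aeval ξ c ≠ 0 ∧
      ∀ i, h i * aeval ξ c = aeval ξ (Y i) := by
  classical
  choose A B hB hAB using fun i => frac hG (h i)
  refine ⟨∏ i, B i, fun i => A i * ∏ j ∈ Finset.univ.erase i, B j, ?_, fun i => ?_⟩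
  · rw [map_prod]
    exact Finset.prod_ne_zero_iff.2 fun i _ => hB i
  · rw [← Finset.mul_prod_erase _ _ (Finset.mem_univ i), map_mul, map_mul, ← mul_assoc, hAB]

end gen

section cls

variable {m : ℕ} (I : Ideal (MvPolynomial (Fin m) k)) [I.IsPrime]

/-- the homomorphism `cls` -/
noncomputable def clsH : MvPolynomial (Fin m) k →ₐ[k] FF I :=
  (IsScalarTower.toAlgHom k (MvPolynomial (Fin m) k ⧸ I) (FF I)).comp (Ideal.Quotient.mkₐ k I)

theorem clsH_apply (A : MvPolynomial (Fin m) k) : clsH I A = cls I A := rfl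

theorem cls_eq (A : MvPolynomial (Fin m) k) : aeval (fun i => cls I (X i)) A = cls I A := by
  have h : clsH I = aeval fun i => cls I (X i) := by
    refine MvPolynomial.algHom_ext fun i => ?_
    rw [aeval_X]
    rfl
  rw [← h]
  rfl

theorem cls_zero (A : MvPolynomial (Fin m) k) : cls I A = 0 ↔ A ∈ I := by
  unfold cls
  rw [← Ideal.Quotient.eq_zero_iff_mem]
  exact IsFractionRing.to_map_eq_zero_iff

theorem denom (ξ : Fin 3 → FF I) : ∃ (d : MvPolynomial (Fin m) k)
    (Z : Fin 3 → MvPolynomial (Fin m) k), d ∉ I ∧ ∀ j, ξ j * cls I d = cls I (Z j) := by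
  obtain ⟨d0, hd0⟩ := IsLocalization.exist_integer_multiples_of_finite
    (nonZeroDivisors (MvPolynomial (Fin m) k ⧸ I)) ξ
  choose z hz using hd0
  obtain ⟨d, hd⟩ := Ideal.Quotient.mk_surjective (I := I) (d0 : MvPolynomial (Fin m) k ⧸ I)
  choose Z hZ using fun j => Ideal.Quotient.mk_surjective (I := I) (z j)
  refine ⟨d, Z, ?_, fun j => ?_⟩
  · intro h
    rw [← Ideal.Quotient.eq_zero_iff_mem, hd] at h
    exact nonZeroDivisors.ne_zero d0.2 h
  · unfold cls
    rw [hd, hZ, hz, Algebra.smul_def, mul_comm]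

end cls

end PtsM

open PtsM in
theorem tPts : StmtPts := by
  intro k _ m I _ P ξ hP hG b hb
  obtain ⟨c, Y, hc, hY⟩ := common hG fun i => cls I (X i)
  obtain ⟨d, Z, hd, hZ⟩ := denom I ξ
  have hpr : Prime P := hP.prime
  -- values of the transformed polynomials
  have hat1 : ∀ (N : ℕ) (A : MvPolynomial (Fin m) k), A.totalDegree ≤ N →
      aeval ξ (hat c Y N A) = aeval ξ c ^ N * cls I A := by
    intro N A hN
    rw [hat_map c Y hN (aeval ξ) (fun i => cls I (X i)) hY, cls_eq]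
  have hdiv : ∀ (N : ℕ) (A : MvPolynomial (Fin m) k), A.totalDegree ≤ N →
      (P ∣ hat c Y N A ↔ A ∈ I) := by
    intro N A hN
    rw [← hG.ker, hat1 N A hN, mul_eq_zero, cls_zero]
    exact or_iff_right (pow_ne_zero _ hc)
  have hPc : ¬ P ∣ c := fun h => hc ((hG.ker c).2 h)
  obtain ⟨Υ, hΥ⟩ : ∃ Υ : (Fin 3 → k) → Fin m → k, ∀ w i, Υ w i = eval w (Y i) / eval w c :=
    ⟨_, fun _ _ => rfl⟩
  have hΥ1 : ∀ w : Fin 3 → k, eval w c ≠ 0 → ∀ i, Υ w i * eval w c = eval w (Y i) := by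
    intro w hw i
    rw [hΥ, div_mul_cancel₀ _ hw]
  have hat2 : ∀ (w : Fin 3 → k), eval w c ≠ 0 → ∀ (N : ℕ) (A : MvPolynomial (Fin m) k),
      A.totalDegree ≤ N → eval w (hat c Y N A) = eval w c ^ N * eval (Υ w) A := by
    intro w hw N A hN
    have h := hat_map c Y hN (aeval w : MvPolynomial (Fin 3) k →ₐ[k] k) (Υ w) (by
      intro i
      rw [ae, ae]
      exact hΥ1 w hw i)
    rw [ae, ae, ae] at h
    exact h
  obtain ⟨β, hβ⟩ : ∃ β, β = c * (hat c Y d.totalDegree d * hat c Y b.totalDegree b) := ⟨_, rfl⟩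
  have hval : ∀ w : Fin 3 → k, eval w β ≠ 0 → eval w c ≠ 0 ∧ eval (Υ w) d ≠ 0 ∧
      eval (Υ w) b ≠ 0 := by
    intro w hw
    rw [hβ, map_mul, map_mul] at hw
    have h1 := left_ne_zero_of_mul hw
    have h2 := left_ne_zero_of_mul (right_ne_zero_of_mul hw)
    have h3 := right_ne_zero_of_mul (right_ne_zero_of_mul hw)
    rw [hat2 w h1 _ _ le_rfl] at h2 h3
    exact ⟨h1, right_ne_zero_of_mul h2, right_ne_zero_of_mul h3⟩
  have hvan : ∀ (w : Fin 3 → k) (A : MvPolynomial (Fin 3) k), eval w P = 0 → P ∣ A →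
      eval w A = 0 := by
    rintro w A hw ⟨B, rfl⟩
    rw [map_mul, hw, zero_mul]
  refine ⟨β, c, Y, Υ, ?_, ⟨_, hβ⟩, hY, fun w hw hwβ => ?_, fun A hA => ?_⟩
  · rw [hβ]
    intro h
    rcases hpr.dvd_or_dvd h with h1 | h1
    · exact hPc h1
    · rcases hpr.dvd_or_dvd h1 with h2 | h2
      · exact hd ((hdiv _ _ le_rfl).1 h2)
      · exact hb ((hdiv _ _ le_rfl).1 h2)
  · obtain ⟨w1, w2, w3⟩ := hval w hwβ
    refine ⟨hΥ1 w w1, fun A hA => ?_, w3, fun h A B hAB hB => ?_⟩
    · have h1 := hvan w _ hw ((hdiv A.totalDegree A le_rfl).2 hA)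
      rw [hat2 w w1 _ _ le_rfl] at h1
      exact (mul_eq_zero.1 h1).resolve_left (pow_ne_zero _ w1)
    · -- the coordinates
      have hwZ : ∀ j, w j * eval (Υ w) d = eval (Υ w) (Z j) := by
        intro j
        obtain ⟨N, hN⟩ : ∃ N, N = max d.totalDegree (Z j).totalDegree := ⟨_, rfl⟩
        have n1 : d.totalDegree ≤ N := hN ▸ le_max_left _ _
        have n2 : (Z j).totalDegree ≤ N := hN ▸ le_max_right _ _
        have h1 : P ∣ X j * hat c Y N d - hat c Y N (Z j) := by
          rw [← hG.ker, map_sub, map_mul, aeval_X, hat1 N d n1, hat1 N (Z j) n2, ← hZ j]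
          ring
        have h2 := hvan w _ hw h1
        rw [map_sub, map_mul, eval_X, hat2 w w1 N d n1, hat2 w w1 N (Z j) n2] at h2
        have h3 : eval w c ^ N * (w j * eval (Υ w) d - eval (Υ w) (Z j)) = 0 := by
          rw [← h2]
          ring
        exact sub_eq_zero.1 ((mul_eq_zero.1 h3).resolve_left (pow_ne_zero _ w1))
      obtain ⟨N, hN⟩ : ∃ N, N = max A.totalDegree B.totalDegree := ⟨_, rfl⟩
      have n1 : A.totalDegree ≤ N := hN ▸ le_max_left _ _
      have n2 : B.totalDegree ≤ N := hN ▸ le_max_right _ _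
      have t1 : ∀ A : MvPolynomial (Fin 3) k, A.totalDegree ≤ N →
          cls I (hat d Z N A) = cls I d ^ N * aeval ξ A := by
        intro A hA
        have h1 := hat_map d Z hA (clsH I) ξ (by
          intro j
          rw [clsH_apply, clsH_apply]
          exact hZ j)
        rw [clsH_apply, clsH_apply] at h1
        exact h1
      have t2 : ∀ A : MvPolynomial (Fin 3) k, A.totalDegree ≤ N →
          eval (Υ w) (hat d Z N A) = eval (Υ w) d ^ N * eval w A := by
        intro A hA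
        have h1 := hat_map d Z hA (aeval (Υ w) : MvPolynomial (Fin m) k →ₐ[k] k) w (by
          intro j
          rw [ae, ae]
          exact hwZ j)
        rw [ae, ae, ae] at h1
        exact h1
      refine ⟨hat d Z N A, hat d Z N B, ?_, ?_, ?_⟩
      · rw [t2 B n2]
        exact mul_ne_zero (pow_ne_zero _ w2) hB
      · rw [t1 A n1, t1 B n2, ← hAB]
        ring
      · rw [t2 A n1, t2 B n2]
        field_simp
  · refine ⟨hat c Y A.totalDegree A, fun h => hA ((hdiv _ _ le_rfl).1 h), fun w _ hwβ h => ?_⟩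
    obtain ⟨w1, -, -⟩ := hval w hwβ
    rw [hat2 w w1 _ _ le_rfl] at h
    exact right_ne_zero_of_mul h

end Pool.Agent.Lib.MP_16285c_agS.G
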