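import Pool.Agent.Lib.MP_16285c_agS.Box.Spec

/-!
# From an arbitrary surface to the model: statements

Section G of note 4871 on `MP_16285c_ag`. `I` is a prime ideal of `k[y₁, …, y_m]` with quotient of transcendence degree `2`, `F I` its
function field, `φ : F I →ₐ[k] F I` the homomorphism of a dominant rational self-map of `V(I)`. The model: `P = 0` in affine three-space.

Every lemma is a `Prop` with its proof in the docstring; used statements are hypotheses.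
-/

set_option autoImplicit false

namespace Pool.Agent.Lib.MP_16285c_agS.G

open MvPolynomial
open Pool.Agent.Lib.MP_16285c_ag (RM)
open Pool.Agent.ZDO (Wd Jc dd nn)
open Pool.Agent.Lib.MP_16285c_agS.Hrx (Mon wX jX fv Keeps Gen)
open Pool.Agent.Lib.MP_16285c_agS.Box (hc StmtHc)

/-- A polynomial as a rational function on affine three-space. -/
noncomputable abbrev fr {k : Type} [Field k] (A : MvPolynomial (Fin 3) k) : FractionRing (MvPolynomial (Fin 3) k) :=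
  algebraMap (MvPolynomial (Fin 3) k) (FractionRing (MvPolynomial (Fin 3) k)) A

/-- `f` induces a dominant rational self-map of the surface `P = 0` (with invertible Jacobian along it). -/
structure Inv {k : Type} [Field k] (P : MvPolynomial (Fin 3) k) (f : RM k 3) : Prop where
  den : ∀ i, ¬ P ∣ f.den i
  jac : ¬ P ∣ Jc f
  jX : ¬ P ∣ jX P f
  keep : ∃ E N : MvPolynomial (Fin 3) k, ¬ P ∣ E ∧ fr (P * N) = fr E * f.comp P

/-- No invariant rational functions on `P = 0`. -/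
def NoInv {k : Type} [Field k] (P : MvPolynomial (Fin 3) k) (f : RM k 3) : Prop :=
  ∀ A B : MvPolynomial (Fin 3) k, ¬ P ∣ B →
    (∃ E N : MvPolynomial (Fin 3) k, ¬ P ∣ E ∧ fr (P * N) = fr E * (f.comp A * fr B - f.comp B * fr A)) →
    ∃ c : k, P ∣ A - C c * B

/-- The theorem for the model (package Top, helper62). -/
def StmtModel : Prop :=
  ∀ (k : Type) [Field k] [IsAlgClosed k] [CharZero k] (P : MvPolynomial (Fin 3) k) (f : RM k 3), Irreducible P → Mon P →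
    Inv P f → NoInv P f → ∀ b : MvPolynomial (Fin 3) k, ¬ P ∣ b →
    ∃ x : ℕ → Fin 3 → k, f.Orb x ∧ (∀ m, eval (x m) P = 0 ∧ eval (x m) b ≠ 0) ∧
      ∀ A : MvPolynomial (Fin 3) k, ¬ P ∣ A → ∃ m, eval (x m) A ≠ 0

/-! ## The surface -/

/-- The function field of `V(I)`. -/
abbrev FF {k : Type} [Field k] {m : ℕ} (I : Ideal (MvPolynomial (Fin m) k)) : Type :=
  FractionRing (MvPolynomial (Fin m) k ⧸ I)

/-- The rational function on `V(I)` defined by a polynomial. -/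
noncomputable def cls {k : Type} [Field k] {m : ℕ} (I : Ideal (MvPolynomial (Fin m) k)) (A : MvPolynomial (Fin m) k) :
    FF I := algebraMap (MvPolynomial (Fin m) k ⧸ I) (FractionRing (MvPolynomial (Fin m) k ⧸ I)) (Ideal.Quotient.mk I A)

/-- The rational function `h` on `V(I)` is defined at `x` and has the value `c`. -/
def ValAt {k : Type} [Field k] {m : ℕ} (I : Ideal (MvPolynomial (Fin m) k)) (h : FF I) (x : Fin m → k) (c : k) : Prop :=
  ∃ A B : MvPolynomial (Fin m) k, eval x B ≠ 0 ∧ h * cls I B = cls I A ∧ eval x A = c * eval x B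

/-- (G1) A model. PROOF. `E / k` is finitely generated of transcendence degree `2`: choose a transcendence basis `x : Fin 2 → E` (e.g. among a finite set of generators; `exists_isTranscendenceBasis`), `K = k(x)`, `E / K` is algebraic and finitely generated, so finite, separable: `E = K(z')` (`Field.exists_primitive_element`). `K` is the field of
fractions of `k[x] = Algebra.adjoin k (range x) ≃ MvPolynomial (Fin 2) k`, and for some `D ∈ k[x]`, `D ≠ 0`, `z = D z'` is integral over `k[x]` (`exists_integral_multiple`). Its minimal polynomial over `K` has coefficients in the integrally closed ring `k[x]` (`minpoly.isIntegrallyClosed_eq_field_fractions`): it gives a monic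
`Q ∈ MvPolynomial (Fin 2) k [Z]`, irreducible over the field of fractions, so irreducible (`Polynomial.Monic.irreducible_iff_irreducible_map_fraction_map`), `P = (finSuccEquiv k 2).symm Q`. `ξ = ![z, x 0, x 1]`. `A(ξ) = 0` iff `Q ∣ A♯` (division with remainder by the monic `Q`; `minpoly.dvd`). -/
def StmtPrimS : Prop :=
  ∀ (k E : Type) [Field k] [CharZero k] [Field E] [Algebra k E] (m : ℕ) (y : Fin m → E),
    IntermediateField.adjoin k (Set.range y) = ⊤ → Algebra.trdeg k E = 2 →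
    ∃ (P : MvPolynomial (Fin 3) k) (ξ : Fin 3 → E), Irreducible P ∧ Mon P ∧ Gen P ξ

/-- (G2) The Jacobian. PROOF. Let `ξ` be generic, `E = k(ξ)`. There are derivations `∂_1, ∂_2` of `E` over `k` with `∂_j (ξ_i) = δ_ij` for `i, j ∈ {1, 2}` (`E` is finite separable over `k(ξ 1, ξ 2)`, which is a purely transcendental extension; cf. `exists_derivation` in `ZDO/Jac.lean`), and
`∂_j (A(ξ)) = (A_j - A_0 P_j / P_0)(ξ)` where `A_j = pderiv j A` (`P(ξ) = 0` gives `∂_j ξ_0 = - P_j / P_0 (ξ)`; `P_0(ξ) ≠ 0` because `P ∤ P_0`: `P` is monic in `X 0`, char `0`). So `(wX P f i j)(ξ) = P_0 den_i ^ 2 (ξ) ∂_j (fv f ξ i)` and `(jX P f)(ξ) = (P_0 den_1 den_2)(ξ) ^ 2 * det (∂_j (fv f ξ i))`, `i, j ∈ {1, 2}`. Suppose that the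
determinant is `0`. `u_i = fv f ξ i`, `i = 1, 2`, are algebraically independent (`fv f ξ i = ψ (ξ i)`, `ψ` injective, and `ξ 1, ξ 2` are algebraically independent since `P` involves `X 0`), so a transcendence basis of `E / k` (`trdeg = 2`). There are `(c₁, c₂) ≠ 0` in `E` such that the derivation `D = c₁ ∂_1 + c₂ ∂_2` kills `u_1`, `u_2`
(the vector is in the kernel of the matrix). `E` is algebraic over `k(u_1, u_2)`, so `D = 0` (`derivation_eq_zero` in `ZDO/Jac.lean`), but `D ξ_j = c_j`: a contradiction. -/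
def StmtJacS : Prop :=
  ∀ (k E : Type) [Field k] [CharZero k] [Field E] [Algebra k E] (P : MvPolynomial (Fin 3) k) (f : RM k 3) (ξ : Fin 3 → E)
    (ψ : E →ₐ[k] E), Irreducible P → Mon P → Gen P ξ → (∀ i, ¬ P ∣ f.den i) → (∀ i, fv f ξ i = ψ (ξ i)) →
    ¬ P ∣ jX P f

/-- (G3) The ambient map. PROOF (uses `StmtJacS`, `StmtHc`). `ψ (ξ i) ∈ E = Frac k[ξ]`: `ψ (ξ i) * e(ξ) = N_i(ξ)` with a common `e`, `¬ P ∣ e`. Let `f^λ` have the numerators `N_0 + λ P, N_1, N_2` and the denominators `e`, `λ = 0, 1`: `fv f^λ ξ i = ψ (ξ i)`. `jX P f^λ` does not depend on `λ` and is not divisible by `P` (`StmtJacS`). Let `W_i` be the row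
`(Wd f i 0, Wd f i 1, Wd f i 2)` (`f = f^0`), `G = (P_0, P_1, P_2)` the gradient of `P`. `Wd f^λ 0 l = Wd f 0 l + λ (P_l e - P e_l)`, so `Jc f^λ ≡ Jc f^0 + λ e det (G; W_1; W_2)` modulo `P`, and `P_0 * det (G; W_1; W_2) = jX P f` (identity of polynomials, `ring`), so `¬ P ∣ det (G; W_1; W_2)`; so `P ∤ Jc f^λ` for `λ = 0` or `λ = 1`. `keep`: `hc f N P` vanishes at `ξ` by
`StmtHc` (b): its value is `(dd f)(ξ) ^ N * P(ψ ξ) = 0`, so `hc f N P = P * W`; and `fr (hc f N P) = fr (dd f) ^ N * f.comp P` (`StmtHc` (b) at the generic point of affine space, `f.comp` is the evaluation at `num / den`), `E = (dd f) ^ N`, `N' = W`. -/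
def StmtAmb : Prop :=
  ∀ (k E : Type) [Field k] [CharZero k] [Field E] [Algebra k E] (P : MvPolynomial (Fin 3) k) (ξ : Fin 3 → E)
    (ψ : E →ₐ[k] E), Irreducible P → Mon P → Gen P ξ → ∃ f : RM k 3, Inv P f ∧ ∀ i, fv f ξ i = ψ (ξ i)

/-- (G4) Invariants. PROOF (uses `StmtHc`). Let `A, B, E', N` be given. With `M ≥` the total degrees of `A`, `B`: `fr (dd f) ^ M * f.comp A = fr (hc f M A)`, so `P * N * dd ^ M = E' * (hc f M A * B - hc f M B * A)` in the polynomial ring. At `ξ`: `P(ξ) = 0`, `E'(ξ) ≠ 0`, `hc f M A (ξ) = dd(ξ) ^ M * A(ψ ξ) = dd(ξ) ^ M * ψ (A(ξ))`, `dd(ξ) ≠ 0`, so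
`ψ (A(ξ)) B(ξ) = ψ (B(ξ)) A(ξ)`, `B(ξ) ≠ 0`: `h = A(ξ) / B(ξ)` satisfies `ψ h = h`, so `h = c`, `A - C c * B` vanishes at `ξ` and is divisible by `P`. -/
def StmtNoInv : Prop :=
  ∀ (k E : Type) [Field k] [Field E] [Algebra k E] (P : MvPolynomial (Fin 3) k) (f : RM k 3) (ξ : Fin 3 → E)
    (ψ : E →ₐ[k] E), Gen P ξ → Inv P f → (∀ i, fv f ξ i = ψ (ξ i)) →
    (∀ h : E, ψ h = h → ∃ c : k, h = algebraMap k E c) → NoInv P f

/-- (G5) Points of the model and points of `V(I)`. PROOF. `y i = cls I (X i) ∈ E = FF I`. Common denominators: `y i * c(ξ) = Y_i(ξ)` with `Y_i, c ∈ k[z,x₁,x₂]`, `¬ P ∣ c`; `ξ j * cls I d = cls I (Z_j)`, `d ∉ I`. For a polynomial `A` in `m` variables and `N ≥ A.totalDegree` let `A^ = c ^ N A(Y / c)` (a polynomial; e.g. `∑ coeff * c ^ (N - |m|) * ∏ Y_i ^ (m i)`): `cls I A * c(ξ) ^ N = A^(ξ)`.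
`β = c * d^ * b^` is not divisible by `P` (`cls I d, cls I b ≠ 0`). For a point `w` of `P = 0` with `c(w) ≠ 0` let `Υ w i = Y_i(w) / c(w)`: `A(Υ w) * c(w) ^ N = A^(w)` for all `A`. (a) `A ∈ I` gives `A^(ξ) = 0`, `P ∣ A^`, `A(Υ w) = 0`. (b) `b(Υ w) ≠ 0`, `d(Υ w) ≠ 0` if `β(w) ≠ 0`. (c) `A ∉ I` gives `¬ P ∣ A^`; take `A' = A^`. (d) Let `h ∈ E`,
`h * B(ξ) = A(ξ)`, `B(w) ≠ 0`, `v = A(w) / B(w)`. For `N ≥` the degrees of `A, B` let `A~ = d ^ N A(Z / d)`, `B~ = d ^ N B(Z / d)` in `m` variables: `cls I A~ = (cls I d) ^ N * A(ξ)`, so `h * cls I B~ = cls I A~`. `w j = Z_j(Υ w) / d(Υ w)`: because `Z_j^ * (power of c) - X j * d^ * (power of c)` vanishes at `ξ`, so is divisible by `P`, so it vanishes at `w`.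
So `B~(Υ w) = d(Υ w) ^ N * B(w) ≠ 0`, `A~(Υ w) = d(Υ w) ^ N * A(w) = v * B~(Υ w)`: `ValAt I h (Υ w) v`. -/
def StmtPts : Prop :=
  ∀ (k : Type) [Field k] (m : ℕ) (I : Ideal (MvPolynomial (Fin m) k)) [I.IsPrime] (P : MvPolynomial (Fin 3) k)
    (ξ : Fin 3 → FF I), Irreducible P → Gen P ξ → ∀ b : MvPolynomial (Fin m) k, b ∉ I →
    ∃ (β c : MvPolynomial (Fin 3) k) (Y : Fin m → MvPolynomial (Fin 3) k) (Υ : (Fin 3 → k) → Fin m → k), ¬ P ∣ β ∧ c ∣ β ∧
      (∀ i, cls I (X i) * aeval ξ c = aeval ξ (Y i)) ∧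
      (∀ w : Fin 3 → k, eval w P = 0 → eval w β ≠ 0 → (∀ i, Υ w i * eval w c = eval w (Y i)) ∧
        (∀ A ∈ I, eval (Υ w) A = 0) ∧ eval (Υ w) b ≠ 0 ∧
        ∀ (h : FF I) (A B : MvPolynomial (Fin 3) k), h * aeval ξ B = aeval ξ A → eval w B ≠ 0 →
          ValAt I h (Υ w) (eval w A / eval w B)) ∧
      ∀ A : MvPolynomial (Fin m) k, A ∉ I → ∃ A' : MvPolynomial (Fin 3) k, ¬ P ∣ A' ∧
        ∀ w : Fin 3 → k, eval w P = 0 → eval w β ≠ 0 → eval w A' ≠ 0 → eval (Υ w) A ≠ 0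

/-- (G6) The theorem. PROOF (uses `StmtModel`, `StmtPrimS`, `StmtAmb`, `StmtNoInv`, `StmtPts`, `StmtHc`). `E = FF I`, `y i = cls I (X i)` generate `E`; `Algebra.trdeg k (FF I) = 2` (fraction field). `P, ξ` from `StmtPrimS`, `f` from `StmtAmb` for `ψ = φ`, `NoInv P f` from `StmtNoInv`; `β, c, Y, Υ` from `StmtPts`. `StmtModel` for `β` gives `w : ℕ → Fin 3 → k`. `x n = Υ (w n)`. On `V(I)`, `b ≠ 0`: `StmtPts`.
Values: `φ (cls I (X i)) = φ (Y_i(ξ) / c(ξ)) = Y_i(φ ξ) / c(φ ξ)`; with `N` large `h = φ (cls I (X i))`, `A = hc f N (Y i)`, `B = hc f N c` satisfy `h * B(ξ) = A(ξ)` (`StmtHc` (b), `fv f ξ = φ ∘ ξ`). `w (n+1) i = fv f (w n) i` (`Orb`), so `B(w n) = dd(w n) ^ N * c(w (n+1)) ≠ 0` (`c ∣ β`), `A(w n) = dd(w n) ^ N * Y_i(w (n+1))`, and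
`A(w n) / B(w n) = Υ (w (n+1)) i = x (n+1) i`. So `ValAt I (φ (cls I (X i))) (x n) (x (n+1) i)`. Density: last part of `StmtPts` and of `StmtModel`. -/
def StmtSurf : Prop :=
  ∀ (k : Type) [Field k] [IsAlgClosed k] [CharZero k] (m : ℕ) (I : Ideal (MvPolynomial (Fin m) k)) [I.IsPrime],
    Algebra.trdeg k (MvPolynomial (Fin m) k ⧸ I) = 2 → ∀ φ : FF I →ₐ[k] FF I,
    (∀ h : FF I, φ h = h → ∃ c : k, h = algebraMap k (FF I) c) → ∀ b : MvPolynomial (Fin m) k, b ∉ I →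
    ∃ x : ℕ → Fin m → k, (∀ n, (∀ A ∈ I, eval (x n) A = 0) ∧ eval (x n) b ≠ 0 ∧
      ∀ i, ValAt I (φ (cls I (X i))) (x n) (x (n + 1) i)) ∧
      ∀ A : MvPolynomial (Fin m) k, A ∉ I → ∃ n, eval (x n) A ≠ 0

end Pool.Agent.Lib.MP_16285c_agS.G
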